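import Mathlib

/-!
# The action of the Grigorchuk group with its twisting cocycle

Sites are sequences `ℕ → Bool`; the root of the lamps is the zero sequence. The letters are `a` and
the elements of the Klein four-group `V`, and they act on pairs (site, phase).
-/

set_option autoImplicit false

namespace Pool.Agent.Helper861_Ann

/-- The Klein four-group `{0, b, c, d}`, with `b = (1, 0)`, `c = (0, 1)`, `d = (1, 1)`. -/
abbrev V := Bool × Bool

/-- Sites. -/
abbrev X := ℕ → Bool

/-- Phases. -/
abbrev Z := ℕ → ZMod 2

/-- The product of the Klein four-group. -/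
def vm (u v : V) : V := (xor u.1 v.1, xor u.2 v.2)

/-- The section along the spine: `b ↦ c ↦ d ↦ b`. -/
def ph (v : V) : V := (v.2, xor v.1 v.2)

/-- The section beside the spine: `b, c ↦ a` and `d ↦ 1`. -/
def om (v : V) : Bool := xor v.1 v.2

/-- The character `b, c ↦ 1`, `d ↦ 0`. -/
def th (v : V) : ZMod 2 := if om v then 1 else 0

/-- The neutral letter. -/
abbrev v0 : V := (false, false)

/-- Put a first coordinate in front of a site. -/
def xc (b : Bool) (x : X) : X := fun n => Nat.casesOn n b x

/-- Drop the first coordinate of a site. -/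
def xt (x : X) : X := fun n => x (n + 1)

/-- Put a first coordinate in front of a phase. -/
def zc (b : ZMod 2) (x : Z) : Z := fun n => Nat.casesOn n b x

/-- Drop the first coordinate of a phase. -/
def zt (x : Z) : Z := fun n => x (n + 1)

@[simp] theorem xc_zero (b : Bool) (x : X) : xc b x 0 = b := rfl
@[simp] theorem xc_succ (b : Bool) (x : X) (n : ℕ) : xc b x (n + 1) = x n := rfl
@[simp] theorem zc_zero (b : ZMod 2) (x : Z) : zc b x 0 = b := rfl
@[simp] theorem zc_succ (b : ZMod 2) (x : Z) (n : ℕ) : zc b x (n + 1) = x n := rfl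
@[simp] theorem xt_xc (b : Bool) (x : X) : xt (xc b x) = x := rfl
@[simp] theorem zt_zc (b : ZMod 2) (x : Z) : zt (zc b x) = x := rfl

theorem xc_eta (x : X) : xc (x 0) (xt x) = x := by
  funext n; cases n <;> rfl

theorem zc_eta (x : Z) : zc (x 0) (zt x) = x := by
  funext n; cases n <;> rfl

theorem zc_add (b c : ZMod 2) (x y : Z) : zc b x + zc c y = zc (b + c) (x + y) := by
  funext n; cases n <;> rfl

/-- The letter `a`: change the first coordinate. -/
def fa (x : X) : X := xc (!x 0) (xt x)

/-- `a` or the identity. -/
def fb (b : Bool) (x : X) : X := if b then fa x else x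

/-- Action of the letters of `V` on sites, coordinate by coordinate. -/
def fv : ℕ → V → X → Bool
  | 0, _, x => x 0
  | n + 1, v, x => if x 0 then fb (om v) (xt x) n else fv n (ph v) (xt x)

/-- The cocycle of the letters of `V`, coordinate by coordinate. -/
def cv : ℕ → V → X → ZMod 2
  | 0, v, x => if x 0 then th (ph v) else 0
  | n + 1, v, x => if x 0 then 0 else cv n (ph v) (xt x)

/-- Action of the letters of `V` on sites. -/
def vx (v : V) (x : X) : X := fun n => fv n v x

/-- The cocycle of the letters of `V`. -/
def cc (v : V) (x : X) : Z := fun n => cv n v x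

@[simp] theorem fa_xc (b : Bool) (x : X) : fa (xc b x) = xc (!b) x := rfl

@[simp] theorem vx_zero (v : V) (x : X) : vx v x 0 = x 0 := rfl

@[simp] theorem vx_false (v : V) (x : X) : vx v (xc false x) = xc false (vx (ph v) x) := by
  funext n; cases n <;> rfl

@[simp] theorem vx_true (v : V) (x : X) : vx v (xc true x) = xc true (fb (om v) x) := by
  funext n; cases n <;> rfl

@[simp] theorem cc_false (v : V) (x : X) : cc v (xc false x) = zc 0 (cc (ph v) x) := by
  funext n; cases n <;> rfl

@[simp] theorem cc_true (v : V) (x : X) : cc v (xc true x) = zc (th (ph v)) 0 := by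
  funext n; cases n <;> rfl

@[simp] theorem fa_fa (x : X) : fa (fa x) = x := by
  funext n; cases n <;> simp [fa, xt]

theorem fb_fb (b c : Bool) (x : X) : fb b (fb c x) = fb (xor b c) x := by
  cases b <;> cases c <;> simp [fb]

/-- The root site. -/
def o : X := fun _ => false

theorem o_eq : o = xc false o := by
  funext n; cases n <;> rfl

theorem z_eq : (0 : Z) = zc 0 0 := by
  funext n; cases n <;> rfl

theorem fv_o (n : ℕ) : ∀ v : V, fv n v o = false := by
  induction n with
  | zero => intro v; rfl
  | succ n ih => intro v; exact ih (ph v)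

theorem cv_o (n : ℕ) : ∀ v : V, cv n v o = 0 := by
  induction n with
  | zero => intro v; rfl
  | succ n ih => intro v; exact ih (ph v)

@[simp] theorem vx_o (v : V) : vx v o = o := by
  funext n; exact fv_o n v

@[simp] theorem cc_o (v : V) : cc v o = 0 := by
  funext n; exact cv_o n v

theorem om_vm (u v : V) : om (vm u v) = xor (om u) (om v) := by
  revert u v; decide

theorem ph_vm (u v : V) : ph (vm u v) = vm (ph u) (ph v) := by
  revert u v; decide

theorem th_vm (u v : V) : th (vm u v) = th v + th u := by
  revert u v; decide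

theorem vx_vm_aux (n : ℕ) : ∀ (u v : V) (x : X), vx u (vx v x) n = vx (vm u v) x n := by
  induction n with
  | zero => intro u v x; rfl
  | succ n ih =>
    intro u v x
    rw [← xc_eta x]
    cases h : x 0
    · simp only [vx_false, xc_succ, ph_vm]
      exact ih _ _ _
    · simp only [vx_true, xc_succ, om_vm, fb_fb]

theorem vx_vm (u v : V) (x : X) : vx u (vx v x) = vx (vm u v) x := by
  funext n; exact vx_vm_aux n u v x

theorem cc_vm_aux (n : ℕ) : ∀ (u v : V) (x : X),
    cc v x n + cc u (vx v x) n = cc (vm u v) x n := by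
  induction n with
  | zero =>
    intro u v x
    rw [← xc_eta x]
    cases h : x 0
    · simp
    · simp [ph_vm, th_vm]
  | succ n ih =>
    intro u v x
    rw [← xc_eta x]
    cases h : x 0
    · simp only [vx_false, cc_false, zc_succ, ph_vm]
      exact ih _ _ _
    · simp

theorem cc_vm (u v : V) (x : X) : cc v x + cc u (vx v x) = cc (vm u v) x := by
  funext n; exact cc_vm_aux n u v x

theorem vx_v0_aux (n : ℕ) : ∀ x : X, vx v0 x n = x n := by
  induction n with
  | zero => intro x; rfl
  | succ n ih =>
    intro x
    rw [← xc_eta x]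
    cases h : x 0
    · simp only [vx_false, xc_succ]
      exact ih _
    · simp [fb, om]

@[simp] theorem vx_v0 (x : X) : vx v0 x = x := by
  funext n; exact vx_v0_aux n x

theorem cc_v0_aux (n : ℕ) : ∀ x : X, cc v0 x n = 0 := by
  induction n with
  | zero =>
    intro x
    rw [← xc_eta x]
    cases h : x 0
    · simp
    · simp [th, ph, om]
  | succ n ih =>
    intro x
    rw [← xc_eta x]
    cases h : x 0
    · simp only [cc_false, zc_succ]
      exact ih _
    · simp

@[simp] theorem cc_v0 (x : X) : cc v0 x = 0 := by
  funext n; exact cc_v0_aux n x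

@[simp] theorem vm_self (v : V) : vm v v = v0 := by
  revert v; decide

@[simp] theorem vm_v0 (v : V) : vm v v0 = v := by
  revert v; decide

@[simp] theorem v0_vm (v : V) : vm v0 v = v := by
  revert v; decide

theorem z_add_self (x : Z) : x + x = 0 := by
  funext n
  exact CharTwo.add_self_eq_zero (x n)

/-- Sites with phases. -/
abbrev Q := X × Z

/-- The letter `a`. -/
def sA (q : Q) : Q := (fa q.1, q.2)

/-- The letters of `V`. -/
def sV (v : V) (q : Q) : Q := (vx v q.1, q.2 + cc v q.1)

/-- `a` or the identity. -/
def sB (b : Bool) (q : Q) : Q := if b then sA q else q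

@[simp] theorem sA_sA (q : Q) : sA (sA q) = q := by simp [sA]

@[simp] theorem sV_sV (u v : V) (q : Q) : sV u (sV v q) = sV (vm u v) q := by
  simp only [sV, vx_vm, add_assoc, cc_vm]

@[simp] theorem sV_v0 (q : Q) : sV v0 q = q := by
  simp [sV]

/-- The action of a word `v₀ a v₁ a ⋯` on sites with phases. -/
def act : List V → Q → Q
  | [], q => q
  | v :: w, q => sV v (sA (act w q))

/-- The place reached by a word. -/
def tau (w : List V) : Q := act w (o, 0)

/-- The alternating products of sections. -/
def alt : Bool → List V → Q → Q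
  | _, [], q => q
  | true, v :: w, q => sV (ph v) (alt false w q)
  | false, v :: w, q => sB (om v) (alt true w q)

/-- The value of the character on the section beside. -/
def side : Bool → List V → ZMod 2
  | _, [] => 0
  | true, v :: w => side false w + th (ph v)
  | false, _ :: w => side true w

/-- Parity of the length. -/
def par : List V → Bool
  | [] => false
  | _ :: w => !(par w)

theorem sV_false (v : V) (x : X) (c : ZMod 2) (z : Z) :
    sV v (xc false x, zc c z) = (xc false (sV (ph v) (x, z)).1, zc c (sV (ph v) (x, z)).2) := by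
  simp [sV, zc_add]

theorem sV_true (v : V) (x : X) (c : ZMod 2) (z : Z) :
    sV v (xc true x, zc c z) = (xc true (sB (om v) (x, z)).1,
      zc (c + th (ph v)) (sB (om v) (x, z)).2) := by
  cases h : om v <;> simp [sV, zc_add, sB, sA, fb, h]

/-- The self-similarity of the action. -/
theorem act_xc (w : List V) : ∀ (b : Bool) (y : X) (c : ZMod 2) (z : Z),
    act w (xc b y, zc c z) =
      (xc (xor b (par w)) (alt (!(xor b (par w))) w (y, z)).1,
        zc (c + side (xor b (par w)) w) (alt (!(xor b (par w))) w (y, z)).2) := by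
  induction w with
  | nil =>
    intro b y c z
    cases b <;> simp [act, alt, side, par]
  | cons v w ih =>
    intro b y c z
    rw [act, ih]
    simp only [par]
    cases h : xor b (par w)
    · have h' : xor b (!(par w)) = true := by
        revert h; cases b <;> cases par w <;> simp
      rw [h']
      simp only [sA, fa_xc, Bool.not_false, sV_true, Bool.not_true, alt, side]
      rw [add_assoc]
    · have h' : xor b (!(par w)) = false := by
        revert h; cases b <;> cases par w <;> simp
      rw [h']
      simp only [sA, fa_xc, Bool.not_true, sV_false, Bool.not_false, alt, side]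

theorem tau_even (w : List V) (h : par w = false) :
    tau w = (xc false (alt true w (o, 0)).1, zc (side false w) (alt true w (o, 0)).2) := by
  have h1 : ((o, 0) : Q) = (xc false o, zc 0 0) := by rw [← o_eq, ← z_eq]
  rw [tau]
  conv_lhs => rw [h1]
  rw [act_xc, h]
  simp

/-- The word read by the section along the spine. -/
def T1 : V → List V → List V
  | t, v :: v' :: w => if om v' then vm t (ph v) :: T1 v0 w else T1 (vm t (ph v)) w
  | _, _ => []

theorem alt_T1 (t : V) (w : List V) :
    ∃ t' : V, ∀ q, sV t (alt true w q) = act (T1 t w) (sV t' q) := by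
  induction t, w using T1.induct with
  | case1 t v v' w h ih =>
    obtain ⟨t', ht'⟩ := ih
    refine ⟨t', fun q => ?_⟩
    rw [T1, if_pos h, act, ← ht' q]
    simp [alt, sB, h]
  | case2 t v v' w h ih =>
    obtain ⟨t', ht'⟩ := ih
    refine ⟨t', fun q => ?_⟩
    rw [T1, if_neg h, ← ht' q]
    simp [alt, sB, h]
  | case3 w t hw =>
    rcases w with _ | ⟨v, _ | ⟨v', w⟩⟩
    · exact ⟨t, fun q => rfl⟩
    · exact ⟨vm t (ph v), fun q => by simp [alt, T1, act]⟩
    · exact absurd rfl (hw v v' w)

theorem T1_prefix (t : V) (w : List V) : ∀ u : List V, u <+: T1 t w →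
    ∃ u' : List V, u' <+: w ∧ par u' = false ∧
      ∃ t' : V, ∀ q, sV t (alt true u' q) = act u (sV t' q) := by
  induction t, w using T1.induct with
  | case1 t v v' w h ih =>
    intro u hu
    rw [T1, if_pos h] at hu
    rcases u with _ | ⟨x, u⟩
    · exact ⟨[], List.nil_prefix, rfl, t, fun q => rfl⟩
    · rw [List.cons_prefix_cons] at hu
      obtain ⟨rfl, hu⟩ := hu
      obtain ⟨u', h1, h2, t', ht'⟩ := ih u hu
      refine ⟨v :: v' :: u', ?_, ?_, t', fun q => ?_⟩
      · simpa [List.cons_prefix_cons] using h1
      · simpa [par] using h2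
      · rw [act, ← ht' q]
        simp [alt, sB, h]
  | case2 t v v' w h ih =>
    intro u hu
    rw [T1, if_neg h] at hu
    obtain ⟨u', h1, h2, t', ht'⟩ := ih u hu
    refine ⟨v :: v' :: u', ?_, ?_, t', fun q => ?_⟩
    · simpa [List.cons_prefix_cons] using h1
    · simpa [par] using h2
    · rw [← ht' q]
      simp [alt, sB, h]
  | case3 w t hw =>
    intro u hu
    have h0 : T1 t w = [] := by
      rcases w with _ | ⟨v, _ | ⟨v', w⟩⟩
      · rfl
      · rfl
      · exact absurd rfl (hw v v' w)
    rw [h0] at hu
    have : u = [] := List.prefix_nil.1 hu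
    subst this
    exact ⟨[], List.nil_prefix, rfl, t, fun q => rfl⟩

/-- Two places of a word with the same site, whose phases differ last at `m`, `m + 1` or
`m + 2`. -/
def HasPair (m : ℕ) (w : List V) : Prop :=
  ∃ u u' : List V, u <+: w ∧ u' <+: w ∧ (tau u).1 = (tau u').1 ∧
    ∃ M, m ≤ M ∧ M < m + 3 ∧ ((tau u).2 + (tau u').2) M = 1 ∧
      ∀ j, M < j → ((tau u).2 + (tau u').2) j = 0

theorem HasPair.cons {m : ℕ} {w : List V} (h : HasPair m w) (v : V) : HasPair m (v :: w) := by
  obtain ⟨u, u', h1, h2, h3, h4⟩ := h
  refine ⟨v :: u, v :: u', by simpa [List.cons_prefix_cons] using h1,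
    by simpa [List.cons_prefix_cons] using h2, ?_, ?_⟩
  · simp only [tau, act, sV, sA] at h3 ⊢
    rw [h3]
  · have : (tau (v :: u)).2 + (tau (v :: u')).2 = (tau u).2 + (tau u').2 := by
      simp only [tau, act, sV, sA] at h3 ⊢
      rw [h3, add_add_add_comm, z_add_self, add_zero]
    rw [this]
    exact h4

theorem HasPair.step {m : ℕ} {w : List V} (h : HasPair m (T1 v0 w)) : HasPair (m + 1) w := by
  obtain ⟨u, u', h1, h2, h3, M, h4, h5, h6, h7⟩ := h
  obtain ⟨r, hr1, hr2, t, ht⟩ := T1_prefix v0 w u h1
  obtain ⟨r', hr1', hr2', t', ht'⟩ := T1_prefix v0 w u' h2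
  have e : alt true r (o, 0) = tau u := by
    have := ht (o, 0)
    rw [sV_v0] at this
    rw [this, tau]
    simp [sV]
  have e' : alt true r' (o, 0) = tau u' := by
    have := ht' (o, 0)
    rw [sV_v0] at this
    rw [this, tau]
    simp [sV]
  refine ⟨r, r', hr1, hr1', ?_, M + 1, by omega, by omega, ?_, ?_⟩
  · rw [tau_even r hr2, tau_even r' hr2', e, e', h3]
  · rw [tau_even r hr2, tau_even r' hr2', e, e', zc_add]
    simpa using h6
  · intro j hj
    obtain ⟨j, rfl⟩ : ∃ i, j = i + 1 := ⟨j - 1, by omega⟩
    rw [tau_even r hr2, tau_even r' hr2', e, e', zc_add]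
    simpa using h7 j (by omega)

/-- The set of words without a pair. -/
def NP (m : ℕ) : Set (List V) := {w | ¬ HasPair m w}

/-- Build the action of a word from its parity, its sections and the side values. -/
def build (p : Bool) (f1 f0 : Q → Q) (c1 c0 : ZMod 2) (q : Q) : Q :=
  (xc (xor (q.1 0) p) ((if xor (q.1 0) p then f0 else f1) (xt q.1, zt q.2)).1,
    zc (q.2 0 + (if xor (q.1 0) p then c1 else c0))
      ((if xor (q.1 0) p then f0 else f1) (xt q.1, zt q.2)).2)

theorem act_build (w : List V) :
    act w = build (par w) (alt true w) (alt false w) (side true w) (side false w) := by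
  funext q
  obtain ⟨x, z⟩ := q
  conv_lhs => rw [← xc_eta x, ← zc_eta z, act_xc]
  simp only [build]
  cases xor (x 0) (par w) <;> simp

theorem finite_step {m : ℕ} (h : (act '' NP m).Finite) : (act '' NP (m + 1)).Finite := by
  -- the possible sections along the spine
  set F1 : Set (Q → Q) := Set.image2 (fun f t => f ∘ sV t) (act '' NP m) Set.univ with hF1
  have hF1f : F1.Finite := h.image2 _ Set.finite_univ
  set F0 : Set (Q → Q) := {id} ∪ Set.image2 (fun b f => sB b ∘ f) Set.univ F1 with hF0
  have hF0f : F0.Finite := (Set.finite_singleton _).union (Set.finite_univ.image2 _ hF1f)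
  have key : ∀ w, w ∈ NP (m + 1) → alt true w ∈ F1 := by
    intro w hw
    obtain ⟨t', ht'⟩ := alt_T1 v0 w
    refine ⟨act (T1 v0 w), ⟨T1 v0 w, fun hp => hw hp.step, rfl⟩, t', Set.mem_univ _, ?_⟩
    funext q
    have := ht' q
    rw [sV_v0] at this
    exact this.symm
  have key0 : ∀ w, w ∈ NP (m + 1) → alt false w ∈ F0 := by
    intro w hw
    rcases w with _ | ⟨v, w⟩
    · left
      rfl
    · right
      exact ⟨om v, Set.mem_univ _, alt true w, key w fun hp => hw (hp.cons v), rfl⟩
  refine Set.Finite.subset (((Set.finite_univ (α := Bool)).prod (hF1f.prod (hF0f.prod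
    ((Set.finite_univ (α := ZMod 2)).prod (Set.finite_univ (α := ZMod 2)))))).image
      (fun r => build r.1 r.2.1 r.2.2.1 r.2.2.2.1 r.2.2.2.2)) ?_
  rintro _ ⟨w, hw, rfl⟩
  refine ⟨(par w, alt true w, alt false w, side true w, side false w), ?_, ?_⟩
  · exact ⟨Set.mem_univ _, key w hw, key0 w hw, Set.mem_univ _, Set.mem_univ _⟩
  · exact (act_build w).symm

end Pool.Agent.Helper861_Ann
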