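import Pool.Agent.Helper861_Ann.Act

/-!
# Words without a pair take finitely many values

Base case: a reduced word with ten letters has a pair at level zero.
-/

set_option autoImplicit false

namespace Pool.Agent.Helper861_Ann

/-- A word is reduced if its letters after the first one are nontrivial. -/
def Red (r : List V) : Prop := ∀ v ∈ r.tail, v ≠ v0

theorem tau_cons (v : V) (w : List V) : tau (v :: w) = sV v (sA (tau w)) := rfl

/-- Reduction of words. -/
theorem exists_red (w : List V) : ∃ (r : List V) (t : V), (act w = act r ∘ sV t) ∧ Red r ∧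
    ∀ u, u <+: r → ∃ u', u' <+: w ∧ tau u' = tau u := by
  induction w with
  | nil =>
    refine ⟨[], v0, ?_, ?_, ?_⟩
    · funext q; simp [act]
    · intro v hv; simp at hv
    · intro u hu
      exact ⟨u, hu, rfl⟩
  | cons v w ih =>
    obtain ⟨r, t, h1, h2, h3⟩ := ih
    rcases r with _ | ⟨r0, r⟩
    · refine ⟨[v], t, ?_, ?_, ?_⟩
      · funext q
        simp [act, h1]
      · intro x hx; simp at hx
      · intro u hu
        refine ⟨u, ?_, rfl⟩
        exact hu.trans (by simp)
    · by_cases h0 : r0 = v0
      · subst h0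
        rcases r with _ | ⟨r1, r⟩
        · refine ⟨[], vm v t, ?_, ?_, ?_⟩
          · funext q
            simp [act, h1]
          · intro x hx; simp at hx
          · intro u hu
            rw [List.prefix_nil.1 hu]
            exact ⟨[], List.nil_prefix, rfl⟩
        · refine ⟨vm v r1 :: r, t, ?_, ?_, ?_⟩
          · funext q
            simp [act, h1]
          · intro x hx
            apply h2 x
            simp only [List.tail_cons] at hx ⊢
            exact List.mem_cons_of_mem _ hx
          · intro u hu
            rcases u with _ | ⟨x, u⟩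
            · exact ⟨[], List.nil_prefix, rfl⟩
            · rw [List.cons_prefix_cons] at hu
              obtain ⟨rfl, hu⟩ := hu
              obtain ⟨u', h4, h5⟩ := h3 (v0 :: r1 :: u) (by
                simpa [List.cons_prefix_cons] using hu)
              refine ⟨v :: u', by simpa [List.cons_prefix_cons] using h4, ?_⟩
              rw [tau_cons, h5, tau_cons, tau_cons, tau_cons]
              simp
      · refine ⟨v :: r0 :: r, t, ?_, ?_, ?_⟩
        · funext q
          simp [act, h1]
        · intro x hx
          simp only [List.tail_cons, List.mem_cons] at hx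
          rcases hx with rfl | hx
          · exact h0
          · exact h2 x hx
        · intro u hu
          rcases u with _ | ⟨x, u⟩
          · exact ⟨[], List.nil_prefix, rfl⟩
          · rw [List.cons_prefix_cons] at hu
            obtain ⟨rfl, hu⟩ := hu
            obtain ⟨u', h4, h5⟩ := h3 u hu
            refine ⟨x :: u', by simpa [List.cons_prefix_cons] using h4, ?_⟩
            rw [tau_cons, h5, tau_cons]

theorem HasPair.of_red {m : ℕ} {w r : List V}
    (h : ∀ u, u <+: r → ∃ u', u' <+: w ∧ tau u' = tau u) (hp : HasPair m r) : HasPair m w := by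
  obtain ⟨u, u', h1, h2, h3⟩ := hp
  obtain ⟨y, hy1, hy2⟩ := h u h1
  obtain ⟨y', hy1', hy2'⟩ := h u' h2
  refine ⟨y, y', hy1, hy1', ?_⟩
  rw [hy2, hy2']
  exact h3

/-- The letters `b`, `c`, `d`. -/
abbrev vb : V := (true, false)
/-- The letter `c`. -/
abbrev vc : V := (false, true)
/-- The letter `d`. -/
abbrev vd : V := (true, true)

theorem hasPair_zero_of {u r : List V} {M : ℕ} (hM : M < 3) (h1 : (tau u).1 = o)
    (h2 : (tau u).2 M = 1) (h3 : ∀ j, M < j → (tau u).2 j = 0) : HasPair 0 (u ++ r) := by
  refine ⟨u, [], List.prefix_append _ _, List.nil_prefix, ?_, M, Nat.zero_le _, by omega, ?_, ?_⟩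
  · rw [h1]; rfl
  · simpa [tau, act] using h2
  · intro j hj
    simpa [tau, act] using h3 j hj

theorem sA_pair (b : Bool) (x : X) (z : Z) : sA (xc b x, z) = (xc (!b) x, z) := rfl

theorem sV_o (v : V) (z : Z) : sV v (o, z) = (o, z) := by simp [sV]

theorem start : ((o, 0) : Q) = (xc false (xc false (xc false (xc false o))),
    zc 0 (zc 0 (zc 0 (zc 0 0)))) := by
  rw [← o_eq, ← o_eq, ← o_eq, ← o_eq, ← z_eq, ← z_eq, ← z_eq, ← z_eq]

theorem pair_d (x : V) (r : List V) : HasPair 0 (x :: vd :: r) := by
  have h : tau [x, vd] = (xc false (xc false (xc false (xc false o))),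
      zc 1 (zc 0 (zc 0 (zc 0 0)))) := by
    rw [tau, start]
    simp [act, sA_pair, sV_false, sV_true, sV_o, sB, om, th, ph]
  have := hasPair_zero_of (u := [x, vd]) (r := r) (M := 0) (by omega)
    (by rw [h]; simp [← o_eq]) (by rw [h]; rfl) (by
      intro j hj
      rw [h]
      match j, hj with
      | 1, _ => rfl
      | 2, _ => rfl
      | 3, _ => rfl
      | (j + 4), _ => rfl)
  simpa using this

theorem pair_c_aux (x y z : V) (hy : y = vb ∨ y = vc) (hz : z = vb ∨ z = vc) :
    ∃ e : ZMod 2, tau [x, y, vc, z] = (xc false (xc false (xc false (xc false o))),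
      zc e (zc 1 (zc 0 (zc 0 0)))) := by
  rcases hy with rfl | rfl <;> rcases hz with rfl | rfl
  · exact ⟨0, by
      rw [tau, start]
      simp [act, sA_pair, sV_false, sV_true, sV_o, sB, om, th, ph, CharTwo.add_self_eq_zero]⟩
  · exact ⟨1, by
      rw [tau, start]
      simp [act, sA_pair, sV_false, sV_true, sV_o, sB, om, th, ph, CharTwo.add_self_eq_zero]⟩
  · exact ⟨1, by
      rw [tau, start]
      simp [act, sA_pair, sV_false, sV_true, sV_o, sB, om, th, ph]⟩
  · exact ⟨0, by
      rw [tau, start]
      simp [act, sA_pair, sV_false, sV_true, sV_o, sB, om, th, ph, CharTwo.add_self_eq_zero]⟩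

theorem pair_c (x y z : V) (hy : y = vb ∨ y = vc) (hz : z = vb ∨ z = vc) (r : List V) :
    HasPair 0 (x :: y :: vc :: z :: r) := by
  obtain ⟨e, h⟩ := pair_c_aux x y z hy hz
  have := hasPair_zero_of (u := [x, y, vc, z]) (r := r) (M := 1) (by omega)
    (by rw [h]; simp [← o_eq]) (by rw [h]; rfl) (by
      intro j hj
      rw [h]
      match j, hj with
      | 2, _ => rfl
      | 3, _ => rfl
      | (j + 4), _ => rfl)
  simpa using this

theorem pair_b_aux (x : V) :
    ∃ e f : ZMod 2, tau [x, vb, vb, vb, vb, vb, vb, vb] =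
      (xc false (xc false (xc false (xc false o))), zc e (zc f (zc 1 (zc 0 0)))) := by
  refine ⟨0, 0, ?_⟩
  rw [tau, start]
  simp [act, sA_pair, sV_false, sV_true, sV_o, sB, om, th, ph, CharTwo.add_self_eq_zero]

theorem pair_b (x : V) (r : List V) :
    HasPair 0 (x :: vb :: vb :: vb :: vb :: vb :: vb :: vb :: r) := by
  obtain ⟨e, f, h⟩ := pair_b_aux x
  have := hasPair_zero_of (u := [x, vb, vb, vb, vb, vb, vb, vb]) (r := r) (M := 2) (by omega)
    (by rw [h]; simp [← o_eq]) (by rw [h]; rfl) (by
      intro j hj
      rw [h]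
      match j, hj with
      | 3, _ => rfl
      | (j + 4), _ => rfl)
  simpa using this

theorem letter_cases (v : V) (h : v ≠ v0) : v = vd ∨ (v = vb ∨ v = vc) := by
  revert h; revert v; decide

/-- A reduced word with at least ten letters has a pair at level zero. -/
theorem hasPair_of_length (r : List V) (hr : Red r) (hl : 10 ≤ r.length) : HasPair 0 r := by
  obtain ⟨x0, x1, x2, x3, x4, x5, x6, x7, x8, x9, r, rfl⟩ :
      ∃ x0 x1 x2 x3 x4 x5 x6 x7 x8 x9 r', r = x0 :: x1 :: x2 :: x3 :: x4 :: x5 :: x6 :: x7 ::
        x8 :: x9 :: r' := by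
    rcases r with _ | ⟨x0, _ | ⟨x1, _ | ⟨x2, _ | ⟨x3, _ | ⟨x4, _ | ⟨x5, _ | ⟨x6, _ | ⟨x7,
      _ | ⟨x8, _ | ⟨x9, r⟩⟩⟩⟩⟩⟩⟩⟩⟩⟩
    all_goals first
      | (exfalso; simp at hl; done)
      | exact ⟨_, _, _, _, _, _, _, _, _, _, _, rfl⟩
  have hne : ∀ v ∈ [x1, x2, x3, x4, x5, x6, x7, x8, x9], v ≠ v0 := by
    intro v hv
    apply hr v
    simp only [List.tail_cons]
    simp only [List.mem_cons, List.not_mem_nil, or_false] at hv ⊢
    tauto
  rcases letter_cases x1 (hne _ (by simp)) with rfl | h1
  · exact pair_d _ _
  rcases letter_cases x2 (hne _ (by simp)) with rfl | h2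
  · exact (pair_d _ _).cons _
  rcases letter_cases x3 (hne _ (by simp)) with rfl | h3
  · exact ((pair_d _ _).cons _).cons _
  rcases letter_cases x4 (hne _ (by simp)) with rfl | h4
  · exact (((pair_d _ _).cons _).cons _).cons _
  rcases letter_cases x5 (hne _ (by simp)) with rfl | h5
  · exact ((((pair_d _ _).cons _).cons _).cons _).cons _
  rcases letter_cases x6 (hne _ (by simp)) with rfl | h6
  · exact (((((pair_d _ _).cons _).cons _).cons _).cons _).cons _
  rcases letter_cases x7 (hne _ (by simp)) with rfl | h7
  · exact ((((((pair_d _ _).cons _).cons _).cons _).cons _).cons _).cons _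
  rcases letter_cases x8 (hne _ (by simp)) with rfl | h8
  · exact (((((((pair_d _ _).cons _).cons _).cons _).cons _).cons _).cons _).cons _
  rcases letter_cases x9 (hne _ (by simp)) with rfl | h9
  · exact ((((((((pair_d _ _).cons _).cons _).cons _).cons _).cons _).cons _).cons _).cons _
  rcases h2 with rfl | rfl
  swap
  · exact pair_c _ _ _ h1 h3 _
  rcases h3 with rfl | rfl
  swap
  · exact (pair_c _ _ _ (Or.inl rfl) h4 _).cons _
  rcases h4 with rfl | rfl
  swap
  · exact ((pair_c _ _ _ (Or.inl rfl) h5 _).cons _).cons _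
  rcases h5 with rfl | rfl
  swap
  · exact (((pair_c _ _ _ (Or.inl rfl) h6 _).cons _).cons _).cons _
  rcases h6 with rfl | rfl
  swap
  · exact ((((pair_c _ _ _ (Or.inl rfl) h7 _).cons _).cons _).cons _).cons _
  rcases h7 with rfl | rfl
  swap
  · exact (((((pair_c _ _ _ (Or.inl rfl) h8 _).cons _).cons _).cons _).cons _).cons _
  rcases h8 with rfl | rfl
  swap
  · exact ((((((pair_c _ _ _ (Or.inl rfl) h9 _).cons _).cons _).cons _).cons _).cons _).cons _
  exact (pair_b _ _).cons _

theorem finite_short : {r : List V | r.length < 10}.Finite := List.finite_length_lt V 10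

theorem finite_zero : (act '' NP 0).Finite := by
  refine Set.Finite.subset (Set.Finite.image2 (fun r t => act r ∘ sV t) finite_short
    (Set.finite_univ (α := V))) ?_
  rintro _ ⟨w, hw, rfl⟩
  obtain ⟨r, t, h1, h2, h3⟩ := exists_red w
  refine ⟨r, ?_, t, Set.mem_univ _, h1.symm⟩
  by_contra hl
  exact hw (HasPair.of_red h3 (hasPair_of_length r h2 (by simpa using hl)))

/-- The words without a pair at a given level take finitely many values. -/
theorem finite_NP (m : ℕ) : (act '' NP m).Finite := by
  induction m with
  | zero => exact finite_zero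
  | succ m ih => exact finite_step ih

/-! ### Words with infinitely many values -/

/-- The word with section `w`. -/
def lft : List V → List V
  | [] => []
  | v :: w => ph (ph v) :: vb :: lft w

theorem ph3 (v : V) : ph (ph (ph v)) = v := by
  revert v; decide

theorem par_lft (w : List V) : par (lft w) = false := by
  induction w with
  | nil => rfl
  | cons v w ih => simp [lft, par, ih]

theorem alt_lft (w : List V) (q : Q) : alt true (lft w) q = act w q := by
  induction w with
  | nil => rfl
  | cons v w ih =>
    simp [lft, alt, act, ph3, sB, om, ih]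

/-- Words whose places have infinitely many sites. -/
def wd : ℕ → List V
  | 0 => [v0]
  | n + 1 => lft (wd n)

theorem tau_wd (n : ℕ) : ∀ j, (tau (wd n)).1 j = decide (j = n) := by
  induction n with
  | zero =>
    intro j
    have : (tau (wd 0)).1 = xc true o := by
      simp only [wd, tau, act, sV_v0, sA]
      rw [o_eq, fa_xc]
      simp [← o_eq]
    rw [this]
    cases j <;> simp [o]
  | succ n ih =>
    intro j
    have : (tau (wd (n + 1))).1 = xc false (tau (wd n)).1 := by
      rw [wd, tau_even _ (par_lft _), alt_lft]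
      rfl
    rw [this]
    cases j with
    | zero => simp
    | succ j => simp [ih j]

theorem wd_injective : Function.Injective fun n => act (wd n) := by
  intro m n h
  have h1 : tau (wd m) = tau (wd n) := congrFun h (o, 0)
  have h2 := tau_wd m m
  rw [h1, tau_wd n m] at h2
  simpa using h2

end Pool.Agent.Helper861_Ann
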