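import Mathlib

/-!
# Cayley graphs, the metric-functional boundary and its annihilator
-/

set_option autoImplicit false

namespace Pool.Agent.Helper861_Ann

/-- The Cayley graph of `G` with respect to `S`: the edges are the pairs `{x, x s}` with `s ∈ S`
(and `x s ≠ x`). -/
def cayleyGraph {G : Type*} [Group G] (S : Set G) : SimpleGraph G :=
  SimpleGraph.fromRel fun x y => ∃ s ∈ S, y = x * s

/-- `b_x(y) = d_S(x, y) - d_S(x, 1)`, where `d_S` is the graph metric of the Cayley graph. -/
noncomputable def bFun {G : Type*} [Group G] (S : Set G) (x : G) : G → ℝ :=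
  fun y => ((cayleyGraph S).dist x y : ℝ) - ((cayleyGraph S).dist x 1 : ℝ)

/-- The metric-functional boundary: the closure of `{b_x : x ∈ G}` in the topology of pointwise
convergence, without the functions `b_x`. -/
def boundary {G : Type*} [Group G] (S : Set G) : Set (G → ℝ) :=
  closure (Set.range (bFun S)) \ Set.range (bFun S)

/-- The annihilator of the metric-functional boundary. -/
def annihilator {G : Type*} [Group G] (S : Set G) : Set G :=
  {x | ∀ h ∈ boundary S, h x = 0}

section

variable {G : Type*} [Group G] {S : Set G}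

theorem adj_iff (x y : G) : (cayleyGraph S).Adj x y ↔
    x ≠ y ∧ ((∃ s ∈ S, y = x * s) ∨ ∃ s ∈ S, x = y * s) := by
  simp [cayleyGraph, SimpleGraph.fromRel_adj]

theorem exists_walk (l : List G) (hl : ∀ s ∈ l, s ∈ S) (x : G) :
    ∃ p : (cayleyGraph S).Walk x (x * l.prod), p.length ≤ l.length := by
  induction l generalizing x with
  | nil => exact ⟨SimpleGraph.Walk.nil.copy rfl (by simp), by simp⟩
  | cons s l ih =>
    obtain ⟨p, hp⟩ := ih (fun t ht => hl t (List.mem_cons_of_mem _ ht)) (x * s)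
    have e : x * (s :: l).prod = x * s * l.prod := by rw [List.prod_cons, mul_assoc]
    by_cases hs : s = 1
    · subst hs
      refine ⟨p.copy (by simp) e.symm, ?_⟩
      simp; omega
    · have hadj : (cayleyGraph S).Adj x (x * s) :=
        (adj_iff _ _).2 ⟨by simpa using hs, Or.inl ⟨s, hl s List.mem_cons_self, rfl⟩⟩
      refine ⟨(SimpleGraph.Walk.cons hadj p).copy rfl e.symm, ?_⟩
      simpa using hp

theorem list_of_walk (hS : ∀ s ∈ S, s⁻¹ ∈ S) {x y : G} (p : (cayleyGraph S).Walk x y) :
    ∃ l : List G, l.length = p.length ∧ (∀ s ∈ l, s ∈ S) ∧ l.prod = x⁻¹ * y := by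
  induction p with
  | nil => exact ⟨[], rfl, by simp, by simp⟩
  | @cons u v w h p ih =>
    obtain ⟨l, h1, h2, h3⟩ := ih
    obtain ⟨s, hs, hv⟩ : ∃ s ∈ S, v = u * s := by
      rcases ((adj_iff _ _).1 h).2 with h | ⟨s, hs, h⟩
      · exact h
      · exact ⟨s⁻¹, hS s hs, by rw [h]; group⟩
    refine ⟨s :: l, by simp [h1], ?_, ?_⟩
    · intro t ht
      rcases List.mem_cons.1 ht with rfl | ht
      · exact hs
      · exact h2 t ht
    · rw [List.prod_cons, h3, hv]
      group

theorem exists_list (hS : ∀ s ∈ S, s⁻¹ ∈ S) (hgen : Subgroup.closure S = ⊤) (g : G) :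
    ∃ l : List G, (∀ s ∈ l, s ∈ S) ∧ l.prod = g := by
  have hg : g ∈ Subgroup.closure S := by rw [hgen]; trivial
  induction hg using Subgroup.closure_induction with
  | mem x hx => exact ⟨[x], by simpa using hx, by simp⟩
  | one => exact ⟨[], by simp, rfl⟩
  | mul x y _ _ hx hy =>
    obtain ⟨l, h1, h2⟩ := hx
    obtain ⟨l', h1', h2'⟩ := hy
    refine ⟨l ++ l', ?_, by rw [List.prod_append, h2, h2']⟩
    intro s hs
    rcases List.mem_append.1 hs with hs | hs
    · exact h1 s hs
    · exact h1' s hs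
  | inv x _ hx =>
    obtain ⟨l, h1, h2⟩ := hx
    refine ⟨(l.map (·⁻¹)).reverse, ?_, by rw [← h2, List.prod_inv_reverse]⟩
    intro s hs
    simp only [List.mem_reverse, List.mem_map] at hs
    obtain ⟨t, ht, rfl⟩ := hs
    exact hS t (h1 t ht)

/-- The graph distance is the word length. -/
theorem dist_le_iff (hS : ∀ s ∈ S, s⁻¹ ∈ S) (hgen : Subgroup.closure S = ⊤) (x y : G) (n : ℕ) :
    (cayleyGraph S).dist x y ≤ n ↔
      ∃ l : List G, l.length ≤ n ∧ (∀ s ∈ l, s ∈ S) ∧ l.prod = x⁻¹ * y := by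
  constructor
  · intro h
    obtain ⟨l0, h1, h2⟩ := exists_list hS hgen (x⁻¹ * y)
    obtain ⟨p0, -⟩ := exists_walk l0 h1 x
    have hr : (cayleyGraph S).Reachable x y := by
      have e : x * l0.prod = y := by rw [h2]; group
      exact ⟨p0.copy rfl e⟩
    obtain ⟨p, hp⟩ := hr.exists_walk_length_eq_dist
    obtain ⟨l, h3, h4, h5⟩ := list_of_walk hS p
    exact ⟨l, by rw [h3, hp]; exact h, h4, h5⟩
  · rintro ⟨l, h1, h2, h3⟩
    obtain ⟨p, hp⟩ := exists_walk l h2 x
    have e : x * l.prod = y := by rw [h3]; group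
    refine (SimpleGraph.dist_le (p.copy rfl e)).trans ?_
    simpa using hp.trans h1

/-- If `x` and `1` have the same distance to all but finitely many points, then `x` is in the
annihilator. -/
theorem mem_annihilator {x : G}
    (h : {y | (cayleyGraph S).dist x y ≠ (cayleyGraph S).dist 1 y}.Finite) :
    x ∈ annihilator S := by
  rintro f ⟨hf, hf'⟩
  by_contra hne
  have hopen : IsOpen {f : G → ℝ | f x ≠ 0} :=
    isOpen_ne_fun (continuous_apply x) continuous_const
  have h1 : f ∈ closure ({f : G → ℝ | f x ≠ 0} ∩ Set.range (bFun S)) :=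
    hopen.inter_closure ⟨hne, hf⟩
  have h2 : ({f : G → ℝ | f x ≠ 0} ∩ Set.range (bFun S)) ⊆
      bFun S '' {y | (cayleyGraph S).dist x y ≠ (cayleyGraph S).dist 1 y} := by
    rintro _ ⟨h3, y, rfl⟩
    refine ⟨y, ?_, rfl⟩
    intro h4
    apply h3
    simp only [bFun]
    rw [SimpleGraph.dist_comm (u := y) (v := x), SimpleGraph.dist_comm (u := y) (v := 1), h4]
    exact sub_self _
  have h3 := closure_mono h2 h1
  rw [(h.image _).isClosed.closure_eq] at h3
  obtain ⟨y, -, rfl⟩ := h3
  exact hf' ⟨y, rfl⟩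

end

end Pool.Agent.Helper861_Ann
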