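import Pool.Agent.Helper861_Ann.Base

/-!
# The group

The ambient group consists of the permutations of `Ph × ZMod 2`; it contains the translations `T ψ`
by functions `ψ : Ph → ZMod 2` and the permutations `R p` coming from permutations `p` of `Ph`.
-/

set_option autoImplicit false

namespace Pool.Agent.Helper861_Ann

/-- The points at which elements of the lamp module are evaluated. -/
abbrev Ph := ℕ × (X → Fin 3 → ZMod 2)

/-- Functions on the points. -/
abbrev N := Ph → ZMod 2

/-- The lamp of kind `i` at the place `q`. -/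
def ev (q : Q) (i : Fin 3) : N := fun φ => φ.2 q.1 i + q.2 (3 * φ.1 + i)

/-- The central elements. -/
def zk (k : ℕ) : N := fun φ => if φ.1 = k then 1 else 0

/-- The letter `a` as a permutation of the points. -/
def pa : Equiv.Perm Ph where
  toFun φ := (φ.1, fun x => φ.2 (fa x))
  invFun φ := (φ.1, fun x => φ.2 (fa x))
  left_inv φ := by simp
  right_inv φ := by simp

/-- The letters of `V` as maps of the points. -/
def pvf (v : V) (φ : Ph) : Ph := (φ.1, fun x i => φ.2 (vx v x) i + cc v x (3 * φ.1 + i))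

theorem pvf_pvf (u v : V) (φ : Ph) : pvf u (pvf v φ) = pvf (vm v u) φ := by
  refine Prod.ext rfl ?_
  funext x i
  simp only [pvf, vx_vm, ← cc_vm, Pi.add_apply]
  ring

theorem pvf_v0 (φ : Ph) : pvf v0 φ = φ := by
  refine Prod.ext rfl ?_
  funext x i
  simp [pvf]

/-- The letters of `V` as permutations of the points. -/
def pv (v : V) : Equiv.Perm Ph where
  toFun := pvf v
  invFun := pvf v
  left_inv φ := by rw [pvf_pvf, vm_self, pvf_v0]
  right_inv φ := by rw [pvf_pvf, vm_self, pvf_v0]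

theorem vm_comm (u v : V) : vm u v = vm v u := by
  revert u v; decide

theorem pv_mul (u v : V) : pv u * pv v = pv (vm u v) := by
  ext1 φ
  change pvf u (pvf v φ) = pvf (vm u v) φ
  rw [pvf_pvf, vm_comm]

theorem pv_v0 : pv v0 = 1 := by
  ext1 φ
  exact pvf_v0 φ

theorem pv_inv (v : V) : (pv v)⁻¹ = pv v := by
  rw [inv_eq_iff_mul_eq_one, pv_mul, vm_self, pv_v0]

theorem pa_pa : pa * pa = 1 := by
  ext1 φ
  exact pa.left_inv φ

theorem pa_inv : pa⁻¹ = pa := by
  rw [inv_eq_iff_mul_eq_one, pa_pa]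

/-- The action of a permutation on functions. -/
def pull (p : Equiv.Perm Ph) : N →ₗ[ZMod 2] N := LinearMap.funLeft (ZMod 2) (ZMod 2) (p⁻¹ : Equiv.Perm Ph)

theorem pull_apply (p : Equiv.Perm Ph) (ψ : N) (φ : Ph) : pull p ψ φ = ψ (p⁻¹ φ) := rfl

theorem pull_mul (p p' : Equiv.Perm Ph) (ψ : N) : pull (p * p') ψ = pull p (pull p' ψ) := by
  funext φ
  simp [pull_apply, mul_inv_rev]

theorem pull_one (ψ : N) : pull 1 ψ = ψ := by
  funext φ
  simp [pull_apply]

theorem pull_pv_ev (v : V) (q : Q) (i : Fin 3) : pull (pv v) (ev q i) = ev (sV v q) i := by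
  funext φ
  rw [pull_apply, pv_inv]
  change (pvf v φ).2 q.1 i + q.2 (3 * φ.1 + i) = _
  simp only [pvf, ev, sV, Pi.add_apply]
  ring

theorem pull_pa_ev (q : Q) (i : Fin 3) : pull pa (ev q i) = ev (sA q) i := by
  funext φ
  rw [pull_apply, pa_inv]
  rfl

/-- The finite group of lamps at the root. -/
def A0 : Submodule (ZMod 2) N := Submodule.span (ZMod 2) (Set.range (ev (o, 0)))

theorem A0_finite : (A0 : Set N).Finite := by
  have : Module.Finite (ZMod 2) A0 := FiniteDimensional.span_of_finite _ (Set.finite_range _)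
  have : Finite A0 := Module.finite_of_finite (ZMod 2)
  exact Set.toFinite _

theorem pull_pv_A0 (v : V) (α : N) (h : α ∈ A0) : pull (pv v) α = α := by
  induction h using Submodule.span_induction with
  | mem x hx =>
    obtain ⟨i, rfl⟩ := hx
    rw [pull_pv_ev]
    simp [sV]
  | zero => simp
  | add x y _ _ hx hy => rw [map_add, hx, hy]
  | smul c x _ hx => rw [map_smul, hx]

/-- The permutation of a word `v₀ a v₁ a ⋯`. -/
def gp : List V → Equiv.Perm Ph
  | [] => 1
  | v :: w => pv v * pa * gp w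

/-- The functions which can be reached along a word. -/
def U : List V → Submodule (ZMod 2) N
  | [] => A0
  | v :: w => A0 ⊔ (U w).map (pull (pv v * pa))

theorem A0_le_U (w : List V) : A0 ≤ U w := by
  cases w with
  | nil => exact le_rfl
  | cons v w => exact le_sup_left

theorem U_mono {u w : List V} (h : u <+: w) : U u ≤ U w := by
  induction u generalizing w with
  | nil => exact A0_le_U w
  | cons v u ih =>
    rcases w with _ | ⟨v', w⟩
    · simp at h
    · rw [List.cons_prefix_cons] at h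
      obtain ⟨rfl, h⟩ := h
      exact sup_le_sup_left (Submodule.map_mono (ih h)) _

theorem ev_mem (w : List V) (i : Fin 3) : ev (tau w) i ∈ U w := by
  induction w with
  | nil => exact Submodule.subset_span ⟨i, rfl⟩
  | cons v w ih =>
    have : ev (tau (v :: w)) i = pull (pv v * pa) (ev (tau w) i) := by
      rw [pull_mul, pull_pa_ev, pull_pv_ev]
      rfl
    rw [this]
    exact Submodule.mem_sup_right (Submodule.mem_map_of_mem ih)

theorem mem_U_of_pair {k : ℕ} {w : List V} (hp : HasPair (3 * k) w)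
    (hj : ∀ j < k, zk j ∈ U w) : zk k ∈ U w := by
  obtain ⟨u, u', h1, h2, h3, M, h4, h5, h6, h7⟩ := hp
  obtain ⟨i, hi⟩ : ∃ i : Fin 3, M = 3 * k + i := ⟨⟨M - 3 * k, by omega⟩, by simp; omega⟩
  set δ : Z := (tau u).2 + (tau u').2 with hδ
  have e1 : ev (tau u) i + ev (tau u') i =
      zk k + ∑ j ∈ Finset.range k, δ (3 * j + i) • zk j := by
    funext φ
    have e2 : (ev (tau u) i + ev (tau u') i) φ = δ (3 * φ.1 + i) := by
      simp only [ev, Pi.add_apply, h3, hδ]
      have : ∀ a b c : ZMod 2, a + b + (a + c) = b + c := by decide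
      exact this _ _ _
    rw [e2]
    simp only [Pi.add_apply, Finset.sum_apply, Pi.smul_apply, zk, smul_eq_mul, mul_ite, mul_one,
      mul_zero]
    rcases lt_trichotomy φ.1 k with h | h | h
    · rw [if_neg h.ne, zero_add, Finset.sum_ite_eq, if_pos (Finset.mem_range.2 h)]
    · rw [if_pos h, Finset.sum_ite_eq, if_neg (by simp [h]), add_zero, h, ← hi, h6]
    · rw [if_neg h.ne', Finset.sum_ite_eq, if_neg (by simp; omega), add_zero]
      exact h7 _ (by omega)
  have e3 : zk k = (ev (tau u) i + ev (tau u') i) -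
      ∑ j ∈ Finset.range k, δ (3 * j + i) • zk j := by
    rw [e1, add_sub_cancel_right]
  rw [e3]
  refine Submodule.sub_mem _ (Submodule.add_mem _ (U_mono h1 (ev_mem u i))
    (U_mono h2 (ev_mem u' i))) ?_
  exact Submodule.sum_mem _ fun j hj' => Submodule.smul_mem _ _ (hj j (Finset.mem_range.1 hj'))

/-- The words which do not reach the `k`-th central element. -/
def Bad (k : ℕ) : Set (List V) := {w | zk k ∉ U w}

theorem finite_Bad (k : ℕ) : (act '' Bad k).Finite := by
  induction k using Nat.strong_induction_on with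
  | _ k ih =>
    refine Set.Finite.subset ((finite_NP (3 * k)).union
      ((Finset.range k).finite_toSet.biUnion (t := fun j => act '' Bad j) fun j hj =>
        ih j (by simpa using hj))) ?_
    rintro _ ⟨w, hw, rfl⟩
    by_cases hp : HasPair (3 * k) w
    · right
      by_contra hc
      apply hw
      refine mem_U_of_pair hp fun j hj => ?_
      by_contra hj'
      apply hc
      simp only [Finset.coe_range, Set.mem_iUnion]
      exact ⟨j, hj, w, hj', rfl⟩
    · left
      exact ⟨w, hp, rfl⟩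

/-! ### The ambient group -/

/-- The ambient group. -/
abbrev W := Equiv.Perm (Ph × ZMod 2)

/-- Translations. -/
def T (ψ : N) : W where
  toFun q := (q.1, q.2 + ψ q.1)
  invFun q := (q.1, q.2 - ψ q.1)
  left_inv q := by simp
  right_inv q := by simp

/-- Permutations of the base. -/
def R (p : Equiv.Perm Ph) : W where
  toFun q := (p q.1, q.2)
  invFun q := (p⁻¹ q.1, q.2)
  left_inv q := by simp
  right_inv q := by simp

theorem T_mul (ψ ψ' : N) : T ψ * T ψ' = T (ψ + ψ') := by
  ext1 q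
  change (q.1, q.2 + ψ' q.1 + ψ q.1) = (q.1, q.2 + (ψ q.1 + ψ' q.1))
  rw [add_assoc, add_comm (ψ' q.1)]

theorem T_zero : T 0 = 1 := by
  ext1 q
  change (q.1, q.2 + 0) = q
  simp

theorem R_mul (p p' : Equiv.Perm Ph) : R p * R p' = R (p * p') := rfl

theorem R_one : R 1 = 1 := rfl

theorem R_T (p : Equiv.Perm Ph) (ψ : N) : R p * T ψ = T (pull p ψ) * R p := by
  ext1 q
  change (p q.1, q.2 + ψ q.1) = (p q.1, q.2 + ψ (p⁻¹ (p q.1)))
  simp

theorem T_self (ψ : N) : T ψ * T ψ = 1 := by
  rw [T_mul]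
  have : ψ + ψ = 0 := by
    funext φ
    exact CharTwo.add_self_eq_zero _
  rw [this, T_zero]

theorem T_injective : Function.Injective T := by
  intro ψ ψ' h
  funext φ
  have : (T ψ) (φ, 0) = (T ψ') (φ, 0) := by rw [h]
  have h2 : ((φ, 0 + ψ φ) : Ph × ZMod 2) = (φ, 0 + ψ' φ) := this
  simpa using h2

theorem zk_injective : Function.Injective zk := by
  intro k k' h
  have := congrFun h (k, 0)
  by_contra hne
  simp [zk, hne] at this

/-- The elements of the finite subgroup. -/
def ke (α : N) (v : V) : W := T α * R (pv v)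

/-- The generating set. -/
def S0 : Set W := {y | ∃ α ∈ A0, ∃ v, y = ke α v} ∪
  {y | ∃ α ∈ A0, ∃ v, ∃ α' ∈ A0, ∃ v', y = ke α v * R pa * ke α' v'}

theorem S0_finite : S0.Finite := by
  refine Set.Finite.union ?_ ?_
  · refine (Set.Finite.image2 ke A0_finite (Set.finite_univ (α := V))).subset ?_
    rintro _ ⟨α, hα, v, rfl⟩
    exact ⟨α, hα, v, Set.mem_univ _, rfl⟩
  · refine (Set.Finite.image2 (fun x y => x * R pa * y)
      (Set.Finite.image2 ke A0_finite (Set.finite_univ (α := V)))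
      (Set.Finite.image2 ke A0_finite (Set.finite_univ (α := V)))).subset ?_
    rintro _ ⟨α, hα, v, α', hα', v', rfl⟩
    exact ⟨_, ⟨α, hα, v, Set.mem_univ _, rfl⟩, _, ⟨α', hα', v', Set.mem_univ _, rfl⟩, rfl⟩

theorem ke_self (α : N) (hα : α ∈ A0) (v : V) : ke α v * ke α v = 1 := by
  rw [ke, mul_assoc, ← mul_assoc (R (pv v)), R_T, pull_pv_A0 v α hα, mul_assoc, R_mul, pv_mul,
    vm_self, pv_v0, R_one, mul_one, T_self]

theorem ke_inv (α : N) (hα : α ∈ A0) (v : V) : (ke α v)⁻¹ = ke α v := by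
  rw [inv_eq_iff_mul_eq_one, ke_self α hα v]

theorem R_pa_inv : (R pa)⁻¹ = R pa := by
  rw [inv_eq_iff_mul_eq_one, R_mul, pa_pa, R_one]

theorem S0_inv {y : W} (hy : y ∈ S0) : y⁻¹ ∈ S0 := by
  rcases hy with ⟨α, hα, v, rfl⟩ | ⟨α, hα, v, α', hα', v', rfl⟩
  · left
    exact ⟨α, hα, v, ke_inv α hα v⟩
  · right
    refine ⟨α', hα', v', α, hα, v, ?_⟩
    rw [mul_inv_rev, mul_inv_rev, ke_inv α hα v, ke_inv α' hα' v', R_pa_inv, mul_assoc]

/-- The elements reached by a word. -/
def Rch (w : List V) (y : W) : Prop := ∃ ν ∈ U w, ∃ v, y = T ν * R (gp w * pv v)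

theorem ke_rch {α : N} (hα : α ∈ A0) (v : V) {w : List V} {y : W} (h : Rch w y) :
    ∃ w', w'.length = w.length ∧ Rch w' (ke α v * y) := by
  obtain ⟨ν, hν, v', rfl⟩ := h
  have e : ke α v * (T ν * R (gp w * pv v')) =
      T (α + pull (pv v) ν) * R (pv v * gp w * pv v') := by
    rw [ke, mul_assoc, ← mul_assoc (R (pv v)), R_T, mul_assoc, R_mul, ← mul_assoc, T_mul,
      mul_assoc (pv v)]
  rcases w with _ | ⟨v1, w2⟩
  · refine ⟨[], rfl, α + ν, Submodule.add_mem _ hα hν, vm v v', ?_⟩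
    rw [e, pull_pv_A0 v ν hν]
    simp only [gp, mul_one, one_mul, pv_mul]
  · refine ⟨vm v v1 :: w2, rfl, α + pull (pv v) ν, ?_, v', ?_⟩
    · obtain ⟨α2, hα2, μ, hμ, rfl⟩ := Submodule.mem_sup.1 hν
      obtain ⟨ν2, hν2, rfl⟩ := hμ
      rw [map_add, pull_pv_A0 v α2 hα2, ← pull_mul, ← mul_assoc, pv_mul, ← add_assoc]
      exact Submodule.add_mem _ (Submodule.mem_sup_left (Submodule.add_mem _ hα hα2))
        (Submodule.mem_sup_right (Submodule.mem_map_of_mem hν2))
    · rw [e]
      simp only [gp, ← mul_assoc, pv_mul]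

theorem pa_rch {w : List V} {y : W} (h : Rch w y) : Rch (v0 :: w) (R pa * y) := by
  obtain ⟨ν, hν, v', rfl⟩ := h
  refine ⟨pull pa ν, ?_, v', ?_⟩
  · have : pull pa ν = pull (pv v0 * pa) ν := by rw [pv_v0, one_mul]
    rw [this]
    exact Submodule.mem_sup_right (Submodule.mem_map_of_mem hν)
  · rw [← mul_assoc, R_T, mul_assoc, R_mul]
    simp only [gp, pv_v0, one_mul, mul_assoc]

theorem rch_of_list (l : List W) (hl : ∀ s ∈ l, s ∈ S0) :
    ∃ w, w.length ≤ l.length ∧ Rch w l.prod := by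
  induction l with
  | nil =>
    refine ⟨[], le_rfl, 0, Submodule.zero_mem _, v0, ?_⟩
    simp [gp, pv_v0, T_zero, R_one]
  | cons s l ih =>
    obtain ⟨w, hw, hr⟩ := ih fun x hx => hl x (List.mem_cons_of_mem _ hx)
    rw [List.prod_cons]
    rcases hl s List.mem_cons_self with ⟨α, hα, v, rfl⟩ | ⟨α, hα, v, α', hα', v', rfl⟩
    · obtain ⟨w', h1, h2⟩ := ke_rch hα v hr
      exact ⟨w', by rw [h1]; exact hw.trans (by simp), h2⟩
    · obtain ⟨w', h1, h2⟩ := ke_rch hα' v' hr
      obtain ⟨w'', h3, h4⟩ := ke_rch hα v (pa_rch h2)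
      refine ⟨w'', ?_, ?_⟩
      · rw [h3, List.length_cons, h1, List.length_cons]
        omega
      · simpa [mul_assoc] using h4

theorem list_of_rch (w : List V) : ∀ (n : ℕ) (y : W), 1 ≤ n → w.length ≤ n → Rch w y →
    ∃ l : List W, l.length ≤ n ∧ (∀ s ∈ l, s ∈ S0) ∧ l.prod = y := by
  induction w with
  | nil =>
    rintro n _ hn - ⟨ν, hν, v, rfl⟩
    refine ⟨[ke ν v], by simpa using hn, ?_, ?_⟩
    · intro s hs
      left
      exact ⟨ν, hν, v, by simpa using hs⟩
    · simp [ke, gp]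
  | cons v1 w2 ih =>
    rintro n _ hn hw ⟨ν, hν, v, rfl⟩
    obtain ⟨α, hα, μ, hμ, rfl⟩ := Submodule.mem_sup.1 hν
    obtain ⟨ν2, hν2, rfl⟩ := hμ
    have e : T (α + pull (pv v1 * pa) ν2) * R (gp (v1 :: w2) * pv v) =
        ke α v1 * R pa * (T ν2 * R (gp w2 * pv v)) := by
      rw [ke, mul_assoc (T α), R_mul, mul_assoc (T α), ← mul_assoc (R _) (T ν2), R_T,
        mul_assoc (T _) (R _) (R _), R_mul, ← mul_assoc (T α), T_mul]
      simp only [gp, mul_assoc]
    rw [e]
    rcases w2 with _ | ⟨v2, w3⟩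
    · refine ⟨[ke α v1 * R pa * ke ν2 v], by simpa using hn, ?_, ?_⟩
      · intro s hs
        right
        exact ⟨α, hα, v1, ν2, hν2, v, by simpa using hs⟩
      · simp [ke, gp]
    · obtain ⟨l, h1, h2, h3⟩ := ih (n - 1) (T ν2 * R (gp (v2 :: w3) * pv v))
        (by simp at hw; omega) (by simp at hw ⊢; omega) ⟨ν2, hν2, v, rfl⟩
      refine ⟨(ke α v1 * R pa * ke 0 v0) :: l, ?_, ?_, ?_⟩
      · simp; omega
      · intro s hs
        rcases List.mem_cons.1 hs with rfl | hs
        · right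
          exact ⟨α, hα, v1, 0, Submodule.zero_mem _, v0, rfl⟩
        · exact h2 s hs
      · rw [List.prod_cons, h3]
        simp [ke, T_zero, pv_v0, R_one]

end Pool.Agent.Helper861_Ann
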