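import Pool.Agent.Helper861_Ann.Grp
import Pool.Agent.Helper861_Ann.Defs

/-!
# The annihilator is infinite
-/

set_option autoImplicit false

namespace Pool.Agent.Helper861_Ann

theorem pull_gp_ev (w : List V) (q : Q) (i : Fin 3) :
    pull (gp w) (ev q i) = ev (act w q) i := by
  induction w with
  | nil => rw [gp, pull_one]; rfl
  | cons v w ih => rw [gp, pull_mul, ih, pull_mul, pull_pa_ev, pull_pv_ev]; rfl

theorem gp_inv_fst (w : List V) (φ : Ph) : ((gp w)⁻¹ φ).1 = φ.1 := by
  induction w generalizing φ with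
  | nil => rfl
  | cons v w ih =>
    rw [gp, mul_inv_rev, mul_inv_rev, pa_inv, pv_inv]
    exact ih (pa (pv v φ))

theorem gp_eq_of_act_eq {w w' : List V} (h : act w = act w') : gp w = gp w' := by
  rw [← inv_inj]
  ext1 φ
  refine Prod.ext ?_ ?_
  · rw [gp_inv_fst, gp_inv_fst]
  · funext x i
    have e : ∀ u : List V, ((gp u)⁻¹ φ).2 x i = ev (act u (x, 0)) i φ := by
      intro u
      rw [← pull_gp_ev, pull_apply]
      simp [ev]
    rw [e, e, h]

theorem gp_Bad_finite (k : ℕ) : (gp '' Bad k).Finite := by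
  classical
  refine ((finite_Bad k).image fun a => if h : ∃ w, act w = a then gp h.choose else 1).subset ?_
  rintro _ ⟨w, hw, rfl⟩
  refine ⟨act w, ⟨w, hw, rfl⟩, ?_⟩
  have h : ∃ w', act w' = act w := ⟨w, rfl⟩
  simp only [dif_pos h]
  exact gp_eq_of_act_eq h.choose_spec

theorem U_le (w : List V) :
    U w ≤ Submodule.span (ZMod 2) {ψ | ∃ u, u <+: w ∧ ∃ i, ψ = ev (tau u) i} := by
  induction w with
  | nil =>
    refine Submodule.span_mono ?_
    rintro _ ⟨i, rfl⟩
    exact ⟨[], List.nil_prefix, i, rfl⟩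
  | cons v w ih =>
    refine sup_le ?_ ?_
    · refine Submodule.span_mono ?_
      rintro _ ⟨i, rfl⟩
      exact ⟨[], List.nil_prefix, i, rfl⟩
    · refine (Submodule.map_mono ih).trans ?_
      rw [Submodule.map_span]
      refine Submodule.span_mono ?_
      rintro _ ⟨_, ⟨u, hu, i, rfl⟩, rfl⟩
      refine ⟨v :: u, by simpa [List.cons_prefix_cons] using hu, i, ?_⟩
      rw [pull_mul, pull_pa_ev, pull_pv_ev]
      rfl

/-- The functions reached by bad words. -/
def UB (k : ℕ) : Submodule (ZMod 2) N :=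
  Submodule.span (ZMod 2) (Set.image2 (fun a i => ev (a (o, 0)) i) (act '' Bad k) Set.univ)

theorem UB_finite (k : ℕ) : (UB k : Set N).Finite := by
  have : Module.Finite (ZMod 2) (UB k) :=
    FiniteDimensional.span_of_finite _ ((finite_Bad k).image2 _ Set.finite_univ)
  have : Finite (UB k) := Module.finite_of_finite (ZMod 2)
  exact Set.toFinite _

theorem U_le_UB {k : ℕ} {w : List V} (hw : w ∈ Bad k) : U w ≤ UB k := by
  refine (U_le w).trans (Submodule.span_mono ?_)
  rintro _ ⟨u, hu, i, rfl⟩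
  exact ⟨act u, ⟨u, fun h => hw (U_mono hu h), rfl⟩, i, Set.mem_univ _, rfl⟩

/-- Finitely many elements are reached by bad words. -/
theorem bad_elements_finite (k : ℕ) : {y : W | ∃ w ∈ Bad k, Rch w y}.Finite := by
  refine (Set.Finite.image2 (fun (ν : N) (r : Equiv.Perm Ph × V) => T ν * R (r.1 * pv r.2))
    (UB_finite k) ((gp_Bad_finite k).prod (Set.finite_univ (α := V)))).subset ?_
  rintro _ ⟨w, hw, ν, hν, v, rfl⟩
  exact ⟨ν, U_le_UB hw hν, (gp w, v), ⟨⟨w, hw, rfl⟩, Set.mem_univ _⟩, rfl⟩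

/-- The group. -/
abbrev G0 : Subgroup W := Subgroup.closure S0

theorem exists_good (k : ℕ) : ∃ w, zk k ∈ U w := by
  by_contra hc
  push Not at hc
  have : Set.Finite (Set.univ : Set ℕ) := by
    refine Set.Finite.of_finite_image ((finite_Bad k).subset ?_)
      (f := fun n => act (wd n)) (wd_injective.injOn)
    rintro _ ⟨n, -, rfl⟩
    exact ⟨wd n, hc _, rfl⟩
  exact Set.infinite_univ this

theorem rch_mem {w : List V} {y : W} (h : Rch w y) : y ∈ G0 := by
  obtain ⟨l, -, h2, rfl⟩ := list_of_rch w (w.length + 1) y (by omega) (by omega) h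
  exact Subgroup.list_prod_mem _ fun s hs => Subgroup.subset_closure (h2 s hs)

theorem T_zk_mem (k : ℕ) : T (zk k) ∈ G0 := by
  obtain ⟨w, hw⟩ := exists_good k
  have h1 : T (zk k) * R (gp w * pv v0) ∈ G0 := rch_mem (w := w) ⟨_, hw, v0, rfl⟩
  have h2 : T 0 * R (gp w * pv v0) ∈ G0 := rch_mem (w := w) ⟨_, Submodule.zero_mem _, v0, rfl⟩
  have := Subgroup.mul_mem _ h1 (Subgroup.inv_mem _ h2)
  simpa [T_zero] using this

/-- The generating set. -/
def SG : Set G0 := {g | (g : W) ∈ S0 ∧ g ≠ 1}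

theorem SG_finite : SG.Finite := by
  refine (S0_finite.preimage Subtype.val_injective.injOn).subset ?_
  intro g hg
  exact hg.1

theorem SG_inv : ∀ s ∈ SG, s⁻¹ ∈ SG := by
  intro s hs
  exact ⟨S0_inv hs.1, by simpa using hs.2⟩

theorem one_notMem_SG : (1 : G0) ∉ SG := fun h => h.2 rfl

theorem closure_SG : Subgroup.closure SG = ⊤ := by
  rw [eq_top_iff, ← Subgroup.closure_closure_coe_preimage, Subgroup.closure_le]
  intro g hg
  by_cases h : g = 1
  · rw [h]; exact Subgroup.one_mem _
  · exact Subgroup.subset_closure ⟨hg, h⟩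

theorem lift_list (l : List W) (hl : ∀ s ∈ l, s ∈ S0) :
    ∃ l' : List G0, l'.length ≤ l.length ∧ (∀ s ∈ l', s ∈ SG) ∧ (l'.prod : W) = l.prod := by
  induction l with
  | nil => exact ⟨[], le_rfl, by simp, rfl⟩
  | cons s l ih =>
    obtain ⟨l', h1, h2, h3⟩ := ih fun x hx => hl x (List.mem_cons_of_mem _ hx)
    have hs : s ∈ S0 := hl s List.mem_cons_self
    by_cases h : s = 1
    · refine ⟨l', h1.trans (by simp), h2, ?_⟩
      rw [h3, h]; simp
    · refine ⟨⟨s, Subgroup.subset_closure hs⟩ :: l', by simpa using h1, ?_, ?_⟩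
      · intro x hx
        rcases List.mem_cons.1 hx with rfl | hx
        · exact ⟨hs, fun h' => h (congrArg Subtype.val h')⟩
        · exact h2 x hx
      · rw [List.prod_cons, Subgroup.coe_mul, h3, List.prod_cons]

theorem unlift_list (l : List G0) (hl : ∀ s ∈ l, s ∈ SG) :
    ∃ w, w.length ≤ l.length ∧ Rch w (l.prod : W) := by
  obtain ⟨w, h1, h2⟩ := rch_of_list (l.map Subtype.val) (by
    intro s hs
    obtain ⟨g, hg, rfl⟩ := List.mem_map.1 hs
    exact (hl g hg).1)
  refine ⟨w, by simpa using h1, ?_⟩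
  have : (l.prod : W) = (l.map Subtype.val).prod := map_list_prod (Subgroup.subtype _) l
  rw [this]
  exact h2

/-- The central elements of the group. -/
def zg (k : ℕ) : G0 := ⟨T (zk k), T_zk_mem k⟩

theorem zg_mul_self (k : ℕ) : zg k * zg k = 1 := Subtype.ext (T_self _)

theorem zg_inv (k : ℕ) : (zg k)⁻¹ = zg k := by
  rw [inv_eq_iff_mul_eq_one, zg_mul_self]

theorem zg_injective : Function.Injective zg := by
  intro k k' h
  exact zk_injective (T_injective (congrArg Subtype.val h))

theorem far_finite (k : ℕ) :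
    {y : G0 | (cayleyGraph SG).dist 1 y < (cayleyGraph SG).dist (zg k) y}.Finite := by
  have hfin : ({1} ∪ Subtype.val ⁻¹' {y : W | ∃ w ∈ Bad k, Rch w y} : Set G0).Finite :=
    (Set.finite_singleton _).union
      ((bad_elements_finite k).preimage Subtype.val_injective.injOn)
  refine hfin.subset ?_
  intro y hy
  by_cases hy1 : y = 1
  · left; exact hy1
  right
  set n := (cayleyGraph SG).dist 1 y with hn
  obtain ⟨l, h1, h2, h3⟩ := (dist_le_iff SG_inv closure_SG 1 y n).1 le_rfl
  have h3' : l.prod = y := by simpa using h3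
  have hn1 : 1 ≤ n := by
    by_contra hc
    have hl : l = [] := List.length_eq_zero_iff.1 (by omega)
    rw [hl] at h3'
    exact hy1 h3'.symm
  obtain ⟨w, hw, hr⟩ := unlift_list l h2
  rw [h3'] at hr
  refine ⟨w, ?_, hr⟩
  intro hz
  obtain ⟨ν, hν, v, hy2⟩ := hr
  have hr' : Rch w ((zg k : W) * (y : W)) := by
    refine ⟨zk k + ν, Submodule.add_mem _ hz hν, v, ?_⟩
    rw [hy2, ← mul_assoc]
    change T (zk k) * T ν * _ = _
    rw [T_mul]
  obtain ⟨l1, h4, h5, h6⟩ := list_of_rch w n _ hn1 (hw.trans h1) hr'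
  obtain ⟨l2, h7, h8, h9⟩ := lift_list l1 h5
  have : (cayleyGraph SG).dist (zg k) y ≤ n := by
    rw [dist_le_iff SG_inv closure_SG]
    refine ⟨l2, h7.trans h4, h8, ?_⟩
    apply Subtype.ext
    rw [h9, h6, zg_inv]
    rfl
  have hy' : n < (cayleyGraph SG).dist (zg k) y := hy
  omega

theorem dist_mul_left (g x y : G0) :
    (cayleyGraph SG).dist (g * x) (g * y) = (cayleyGraph SG).dist x y := by
  apply le_antisymm
  · rw [dist_le_iff SG_inv closure_SG]
    obtain ⟨l, h1, h2, h3⟩ := (dist_le_iff SG_inv closure_SG x y _).1 le_rfl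
    exact ⟨l, h1, h2, by rw [h3]; group⟩
  · rw [dist_le_iff SG_inv closure_SG]
    obtain ⟨l, h1, h2, h3⟩ := (dist_le_iff SG_inv closure_SG (g * x) (g * y) _).1 le_rfl
    exact ⟨l, h1, h2, by rw [h3]; group⟩

theorem zg_mem (k : ℕ) : zg k ∈ annihilator SG := by
  apply mem_annihilator
  have h := far_finite k
  refine (h.union (h.image fun y => zg k * y)).subset ?_
  intro y hy
  rcases lt_or_gt_of_ne hy with h1 | h1
  · right
    refine ⟨zg k * y, ?_, ?_⟩
    · change (cayleyGraph SG).dist 1 (zg k * y) < (cayleyGraph SG).dist (zg k) (zg k * y)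
      have e1 : (cayleyGraph SG).dist 1 (zg k * y) = (cayleyGraph SG).dist (zg k) y := by
        rw [← dist_mul_left (zg k) 1 (zg k * y), mul_one, ← mul_assoc, zg_mul_self, one_mul]
      have e2 : (cayleyGraph SG).dist (zg k) (zg k * y) = (cayleyGraph SG).dist 1 y := by
        rw [← dist_mul_left (zg k) 1 y, mul_one]
      rw [e1, e2]
      exact h1
    · change zg k * (zg k * y) = y
      rw [← mul_assoc, zg_mul_self, one_mul]
  · left
    exact h1

theorem annihilator_infinite : (annihilator SG).Infinite :=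
  Set.infinite_of_injective_forall_mem zg_injective zg_mem

end Pool.Agent.Helper861_Ann
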